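import Pool.Agent.helper1.CD.Spec

/-!
# Project CD (MP_2e0e07_nt), row TOT: the Dirichlet series of all places
-/

set_option autoImplicit false

open NumberField IsDedekindDomain Complex Pool.Agent.CH Pool.Agent.GK

namespace Pool.Agent.CD

theorem TOT (hDSL : DSL_stmt) (hSMB : SMB_stmt) (hPRS : PRS_stmt) (hKFV : KFV_stmt) : TOT_stmt := by
  intro K _ _
  obtain ⟨C1, δ, hδ, h1⟩ := hKFV K
  obtain ⟨-, C2, h2⟩ := hSMB K
  obtain ⟨h3, h4⟩ := hPRS K
  refine ⟨C1 + C2, δ, hδ, ?_⟩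
  intro s hs hs'
  obtain ⟨d1, -, d3, -⟩ := hDSL K s hs
  have e1 : (Set.univ : Set (Pl K)) = {v | (nv K v).Prime} ∪ {v | ¬ (nv K v).Prime} := by
    ext v
    simp only [Set.mem_univ, Set.mem_union, Set.mem_setOf_eq, true_iff]
    exact em _
  have e2 : DS K Set.univ s = DS K {v | (nv K v).Prime} s + DS K {v | ¬ (nv K v).Prime} s := by
    rw [e1]
    apply d3
    rw [Set.disjoint_left]
    intro v hv hv'
    exact hv' hv
  have e3 : DS K {v | (nv K v).Prime} s = ∑' p : Nat.Primes, (nd K p : ℝ) * ((p : ℕ) : ℝ) ^ (-s) := by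
    rw [(h4 {v | (nv K v).Prime} s hs (fun v hv => hv)).2]
    congr 1
    funext p
    have hp : (p : ℕ).Prime := p.2
    rw [h3 p hp]
    congr 2
    apply Nat.card_congr
    refine Equiv.subtypeEquivRight fun v => ⟨fun h => h.2, fun h => ⟨?_, h⟩⟩
    rw [Set.mem_setOf_eq, h]
    exact hp
  have h5 := (h1 s hs hs').2
  rw [← e3] at h5
  have h6 := h2 s hs
  have h7 := d1 {v | ¬ (nv K v).Prime}
  rw [e2]
  have h8 := abs_le.1 h5
  rw [abs_le]
  constructor <;> linarith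

end Pool.Agent.CD
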